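import Pool.Agent.V7H51.CH.G

set_option autoImplicit false

/-!
# Chernoff's density is strongly log-concave

Chernoff's density is the density of `argmax (W(t) - t²)`, `W` two-sided Brownian motion. By
Groeneboom's theorem it is `f_Z(t) = (1/2) g(t) g(-t)`, where `g` is the function whose Fourier
transform is `∫ exp(i l s) g(s) ds = 2^(1/3) / Ai(i 2^(-1/3) l)`. This formula is the definition
here.

The proof. Up to scaling `g(-x)` is `G(x) = ∫ exp(i w x) / Ai(i w) dw`. If `-a` is a zero of the Airy
function, then `F(z) = Ai(z) / (Ai(0) (1 + z/a))` is a locally uniform limit of real polynomials with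
real zeros only, so the inverse Fourier transform of `1 / F(i w)` is a limit of densities of sums of
independent exponential and Gaussian variables and is log-concave; it is analytic, hence positive.
`exp(a x) G(x)` is a primitive of a log-concave function, which makes `G` strictly log-concave. The
saddle point method with derivatives gives `-(log G)'' ≥ 1` near `-∞`. So the function
`-(log f_Z)''(t)`, the sum of the two positive functions which belong to `g(t)` and `g(-t)`, is
bounded below by a positive constant.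

The modules in `Pool.Agent.R748.CH` belong to an earlier, unfinished project; the factorisation of
the Airy function and the assembly are in `Pool.Agent.V7H51.CH`.
-/

namespace Pool.Agent.Results.MP_0705dc_pr.StronglyLogConcaveH51

open Complex MeasureTheory

/-- The Airy function, `Ai(z) = (1 / 2π) ∫ exp(i (w³/3 + z w)) dw` over the line `Im w = 1`. -/
noncomputable def airy (z : ℂ) : ℂ :=
  ((1 / (2 * Real.pi) : ℝ) : ℂ) *
    ∫ s : ℝ, cexp (I * (((s : ℂ) + I) ^ 3 / 3 + z * ((s : ℂ) + I)))

/-- Groeneboom's function, `g(t) = (1 / 2π) ∫ exp(-i l t) 2^(1/3) / Ai(i 2^(-1/3) l) dl`. -/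
noncomputable def g (t : ℝ) : ℂ :=
  ((1 / (2 * Real.pi) : ℝ) : ℂ) * ∫ l : ℝ, cexp (-(I * (l : ℂ) * (t : ℂ))) *
    ((((2 : ℝ) ^ ((1 : ℝ) / 3) : ℝ) : ℂ) / airy (I * ((((2 : ℝ) ^ (-((1 : ℝ) / 3)) : ℝ) * l : ℝ) : ℂ)))

/-- Chernoff's density `f_Z(t) = (1/2) g(t) g(-t)`. -/
noncomputable def chernoff (t : ℝ) : ℝ := ((1 / 2 : ℂ) * g t * g (-t)).re

/-- The function `airy` is entire and solves Airy's equation, `g` is real and positive, and
`chernoff` is positive, twice continuously differentiable and strongly log-concave. -/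
theorem result :
    (Differentiable ℂ airy ∧ ∀ z, deriv (deriv airy) z = z * airy z) ∧
    (∀ t, (g t).im = 0 ∧ 0 < (g t).re) ∧
    ∃ c : ℝ, 0 < c ∧ (∀ t, 0 < chernoff t) ∧ ContDiff ℝ 2 chernoff ∧
      (∀ t, c ≤ -(iteratedDeriv 2 (fun s => Real.log (chernoff s)) t)) ∧
      ConvexOn ℝ Set.univ (fun t => -Real.log (chernoff t) - c / 2 * t ^ 2) := by
  have hg : ∀ t, (g t).im = 0 ∧ 0 < (g t).re := Pool.Agent.V7H51.CH.gG_real_pos
  refine ⟨⟨Pool.Agent.H140R2.FR.Ai_differentiable, Pool.Agent.H140R2.FR.Ai_ode⟩, hg, ?_⟩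
  have e : chernoff = Pool.Agent.R748.CH.fZ := by
    funext t
    have h1 : ((1 / 2 : ℂ) * g t * g (-t)).re = (1 / 2) * (g t).re * (g (-t)).re := by
      have h2 : g t = ((g t).re : ℂ) := Complex.ext rfl (by simp [(hg t).1])
      have h3 : g (-t) = ((g (-t)).re : ℂ) := Complex.ext rfl (by simp [(hg (-t)).1])
      have h4 : (1 / 2 : ℂ) * ((g t).re : ℂ) * ((g (-t)).re : ℂ) =
          (((1 / 2) * (g t).re * (g (-t)).re : ℝ) : ℂ) := by push_cast; ring
      calc ((1 / 2 : ℂ) * g t * g (-t)).re
          = ((1 / 2 : ℂ) * ((g t).re : ℂ) * ((g (-t)).re : ℂ)).re := by rw [← h2, ← h3]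
        _ = _ := by rw [h4, Complex.ofReal_re]
    exact h1
  rw [e]
  exact Pool.Agent.V7H51.CH.strong

end Pool.Agent.Results.MP_0705dc_pr.StronglyLogConcaveH51
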